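import Pool.Agent.N24.KM.All
import Pool.Agent.N24.RW.Clo
import Pool.Agent.N140.RO.Cnt
import Pool.Agent.N666.TM.Crit

/-!
# Pronull sets and equidistributed sequences of integral vectors, along arbitrary sets of times (helper918)
-/

set_option autoImplicit false

namespace Pool.Agent.N918.EQ

open Filter Topology MeasureTheory
open Pool.Agent.N24.RW (ProNull)
open Pool.Agent.N24.KM (Koksma Rarely Metric)

section

variable {ι : Type} [Fintype ι]

/-- The sequence `c` of integral vectors is equidistributed along the finite sets of times `S N`: for all `q` prime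
to some number the proportion of the `n` in `S N` for which `c n` is in a given class modulo `q` is at most
`q ^ (-r) + o(1)`, `N → ∞`. -/
def Equi (S : ℕ → Finset ℕ) (c : ℕ → ι → ℤ) : Prop :=
  ∃ M : ℕ, 0 < M ∧ ∀ q : ℕ, 0 < q → q.Coprime M → ∀ (a : ι → ZMod q) (ε : ℝ), 0 < ε →
    ∃ N₀ : ℕ, ∀ N : ℕ, N₀ ≤ N →
      (({n : ℕ | n ∈ S N ∧ ∀ i, ((c n i : ℤ) : ZMod q) = a i}.ncard : ℕ) : ℝ) ≤
        (((q : ℝ) ^ Fintype.card ι)⁻¹ + ε) * (S N).card

/-- The proportion of the `n` in `S N` with `c n` in `B` tends to zero. -/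
def RareIn (S : ℕ → Finset ℕ) (c : ℕ → ι → ℤ) (B : Set (ι → ℤ)) : Prop :=
  ∀ ε : ℝ, 0 < ε → ∃ N₀ : ℕ, ∀ N : ℕ, N₀ ≤ N →
    (({n : ℕ | n ∈ S N ∧ c n ∈ B}.ncard : ℕ) : ℝ) ≤ ε * (S N).card

theorem rareIn_of_equi {S : ℕ → Finset ℕ} {c : ℕ → ι → ℤ} {B : Set (ι → ℤ)} (hc : Equi S c)
    (hB : ProNull B) : RareIn S c B := by
  classical
  intro ε hε
  obtain ⟨M, hM, hc⟩ := hc
  obtain ⟨q, hq, hqM, hb⟩ := hB M hM (ε / 2) (by positivity)
  have : NeZero q := ⟨hq.ne'⟩
  have hqr : (0 : ℝ) < q := by exact_mod_cast hq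
  obtain ⟨I, hI⟩ : ∃ I : Set (ι → ZMod q), I = (fun (c : ι → ℤ) (i : ι) => (c i : ZMod q)) '' B :=
    ⟨_, rfl⟩
  rw [← hI] at hb
  have hIf : I.Finite := Set.toFinite _
  have hδ : (0 : ℝ) < ε / (2 * (I.ncard + 1)) := by positivity
  choose N₀ hN₀ using fun a : ι → ZMod q => hc q hq hqM a (ε / (2 * (I.ncard + 1))) hδ
  refine ⟨Finset.univ.sup N₀, fun N hN => ?_⟩
  have hsub : {n : ℕ | n ∈ S N ∧ c n ∈ B} ⊆
      ⋃ a ∈ hIf.toFinset, {n : ℕ | n ∈ S N ∧ ∀ i, ((c n i : ℤ) : ZMod q) = a i} := by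
    intro n hn
    rw [Set.mem_iUnion₂]
    refine ⟨fun i => ((c n i : ℤ) : ZMod q), ?_, hn.1, fun i => rfl⟩
    rw [Set.Finite.mem_toFinset, hI]
    exact ⟨_, hn.2, rfl⟩
  have hfin : (⋃ a ∈ hIf.toFinset,
      {n : ℕ | n ∈ S N ∧ ∀ i, ((c n i : ℤ) : ZMod q) = a i}).Finite := by
    refine (S N).finite_toSet.subset ?_
    intro n hn
    rw [Set.mem_iUnion₂] at hn
    obtain ⟨a, _, hn⟩ := hn
    exact hn.1
  have h3 := (Set.ncard_le_ncard hsub hfin).trans
    (Finset.set_ncard_biUnion_le hIf.toFinset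
      (fun a => {n : ℕ | n ∈ S N ∧ ∀ i, ((c n i : ℤ) : ZMod q) = a i}))
  have h4 : (({n : ℕ | n ∈ S N ∧ c n ∈ B}.ncard : ℕ) : ℝ) ≤
      ∑ a ∈ hIf.toFinset, (((q : ℝ) ^ Fintype.card ι)⁻¹ + ε / (2 * (I.ncard + 1))) * (S N).card := by
    have h3' : (({n : ℕ | n ∈ S N ∧ c n ∈ B}.ncard : ℕ) : ℝ) ≤ ∑ a ∈ hIf.toFinset,
        (({n : ℕ | n ∈ S N ∧ ∀ i, ((c n i : ℤ) : ZMod q) = a i}.ncard : ℕ) : ℝ) := by
      exact_mod_cast h3
    refine le_trans h3' (Finset.sum_le_sum fun a _ => ?_)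
    exact hN₀ a N ((Finset.le_sup (Finset.mem_univ a)).trans hN)
  refine h4.trans ?_
  rw [Finset.sum_const, nsmul_eq_mul, ← Set.ncard_eq_toFinset_card I hIf, ← mul_assoc]
  refine mul_le_mul_of_nonneg_right ?_ (Nat.cast_nonneg _)
  have hqp : (0 : ℝ) < (q : ℝ) ^ Fintype.card ι := by positivity
  have h5 : (I.ncard : ℝ) * ((q : ℝ) ^ Fintype.card ι)⁻¹ ≤ ε / 2 := by
    rw [← div_eq_mul_inv, div_le_iff₀ hqp]
    exact hb
  have h6 : (I.ncard : ℝ) * (ε / (2 * (I.ncard + 1))) ≤ ε / 2 := by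
    rw [mul_div_assoc', div_le_div_iff₀ (by positivity) (by norm_num)]
    nlinarith [hε, (Nat.cast_nonneg I.ncard : (0 : ℝ) ≤ I.ncard)]
  rw [mul_add]
  linarith

/-- well distributed sequences -/
theorem rareIn_of_well [DecidableEq ι] {S : ℕ → Finset ℕ} {x : ℕ → ι → ℤ} {κ : ℝ} (hκ : 0 < κ)
    (hw : ∃ N₀ : ℕ, ∀ N : ℕ, N₀ ≤ N → ∀ H : ℕ, (H : ℝ) ≤ (N : ℝ) ^ κ →
      Pool.Agent.N666.TM.Well (S N) x H) {B : Set (ι → ℤ)} (hB : ProNull B) : RareIn S x B := by
  classical
  intro ε hε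
  obtain ⟨q, hq, _, hb⟩ := hB 1 one_pos (ε / 2) (by positivity)
  have hqr : (0 : ℝ) < q := by exact_mod_cast hq
  obtain ⟨N₀, h⟩ := Pool.Agent.N666.TM.rare hκ hw q hq
    ((fun (c : ι → ℤ) (i : ι) => (c i : ZMod q)) '' B) (ε / 2) (by
      unfold Pool.Agent.N666.TM.dens
      rw [div_le_iff₀ (by positivity)]
      exact hb)
  refine ⟨N₀, fun N hN => ?_⟩
  have h1 := h N hN
  rw [show 2 * (ε / 2) = ε by ring] at h1
  refine le_trans ?_ h1
  have h2 : {n : ℕ | n ∈ S N ∧ x n ∈ B} ⊆ (((S N).filter fun n =>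
      Pool.Agent.Y722.HS.red q (x n) ∈ ((fun (c : ι → ℤ) (i : ι) => (c i : ZMod q)) '' B) : Finset ℕ) : Set ℕ) := by
    intro n hn
    rw [Finset.mem_coe, Finset.mem_filter]
    exact ⟨hn.1, ⟨x n, hn.2, rfl⟩⟩
  have h3 := Set.ncard_le_ncard h2 (Finset.finite_toSet _)
  rw [Set.ncard_coe_finset] at h3
  exact_mod_cast h3

theorem rareIn_of_rarely {c : ℕ → ι → ℤ} {B : Set (ι → ℤ)} (h : Rarely c B) :
    RareIn Finset.range c B := by
  intro ε hε
  have h1 := h.eventually_lt_const hε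
  obtain ⟨N₀, hN₀⟩ := eventually_atTop.1 h1
  refine ⟨N₀ + 1, fun N hN => ?_⟩
  have h2 := hN₀ N (by omega)
  have hN0 : (0 : ℝ) < N := by exact_mod_cast (by omega : 0 < N)
  rw [div_lt_iff₀ hN0] at h2
  have h3 : {n : ℕ | n ∈ Finset.range N ∧ c n ∈ B} = {n : ℕ | n < N ∧ c n ∈ B} := by
    ext n
    simp only [Set.mem_ofPred_eq, Finset.mem_range]
  rw [h3, Finset.card_range]
  exact h2.le

end

open NumberField in
/-- one null set for all finite extensions `E` and all data in `T E` at the same time -/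
theorem ae_all_ext {K : Type} [Field K] [NumberField K] {ι : Type} [Fintype ι] {X : Type}
    [MeasurableSpace X] (μ : Measure X) (R : X → Set (ι → ℤ) → Prop)
    (hR : ∀ B : Set (ι → ℤ), ProNull B → ∀ᵐ x ∂μ, R x B)
    (T : ∀ (E : Type) [Field E], Type)
    (hT : ∀ (E : Type) [Field E], Countable E → Countable (T E))
    (G : ∀ (E : Type) [Field E] [Algebra K E], T E → (ι → ℤ) → Prop)
    (hG : ∀ (E : Type) [Field E] [NumberField E] [Algebra K E] (t : T E), ProNull {c | ¬ G E t c}) :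
    ∀ᵐ x ∂μ, ∀ E : IntermediateField K (AlgebraicClosure K), FiniteDimensional K E →
      ∀ t : T E, R x {c | ¬ G E t c} := by
  have := Pool.Agent.N140.RO.countable_algClosure K
  have h1 : ∀ S : Finset (AlgebraicClosure K), ∀ᵐ x ∂μ,
      FiniteDimensional K (IntermediateField.adjoin K (S : Set (AlgebraicClosure K))) →
      ∀ t : T (IntermediateField.adjoin K (S : Set (AlgebraicClosure K))),
        R x {c | ¬ G (IntermediateField.adjoin K (S : Set (AlgebraicClosure K))) t c} := by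
    intro S
    by_cases hfd : FiniteDimensional K (IntermediateField.adjoin K (S : Set (AlgebraicClosure K)))
    · have hnf : NumberField (IntermediateField.adjoin K (S : Set (AlgebraicClosure K))) := by
        have : CharZero (IntermediateField.adjoin K (S : Set (AlgebraicClosure K))) :=
          charZero_of_injective_algebraMap (algebraMap K _).injective
        have : FiniteDimensional ℚ (IntermediateField.adjoin K (S : Set (AlgebraicClosure K))) :=
          FiniteDimensional.trans ℚ K _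
        exact ⟨⟩
      have hc : Countable (IntermediateField.adjoin K (S : Set (AlgebraicClosure K))) :=
        inferInstance
      have hcT := hT (IntermediateField.adjoin K (S : Set (AlgebraicClosure K))) hc
      have key : ∀ t : T (IntermediateField.adjoin K (S : Set (AlgebraicClosure K))), ∀ᵐ x ∂μ,
          R x {c | ¬ G (IntermediateField.adjoin K (S : Set (AlgebraicClosure K))) t c} :=
        fun t => hR _ (hG (IntermediateField.adjoin K (S : Set (AlgebraicClosure K))) t)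
      have key2 := ae_all_iff.2 key
      filter_upwards [key2] with w hw _ t
      exact hw t
    · exact Eventually.of_forall fun w h => absurd h hfd
  filter_upwards [ae_all_iff.2 h1] with w hw E hE
  obtain ⟨S, hS⟩ : E.FG := by
    refine IntermediateField.fg_of_fg_toSubalgebra E ?_
    rw [Subalgebra.fg_iff_finiteType]
    have : FiniteDimensional K E.toSubalgebra := hE
    infer_instance
  subst hS
  intro t
  exact hw S hE t

end Pool.Agent.N918.EQ
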