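import Pool.Agent.N918.EQ.Typ
import Pool.Agent.N24.RW.Crit
import Pool.Agent.N323.TH.Main

/-!
# The Selmer group conjecture for typical sequences of curves (helper918)

The local criteria and the counting of the residue classes are those of `Pool.Agent.R431.SG` and
`Pool.Agent.N323.TH` (helper323).
-/

set_option autoImplicit false
set_option linter.all false

open scoped Classical

namespace Pool.Agent.N918.EQ.Sel

open Polynomial NumberField IsDedekindDomain Pool.Agent.Y713 Pool.Agent.R431.SG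
open Pool.Agent.N24.RW (ProNull) 
open Pool.Agent.N323.TH (cv repr_cv Tab tab exists_iso pf exists_pf pf_map cv_map curves_end monic_end
  twists_end ObT)
open Pool.Agent.N918.EQ (RareIn Typical typical_of)
open Filter Topology MeasureTheory

section density

variable {k : Type} [Field k] [NumberField k] {J : Type} [Fintype J] (B : Module.Basis J ℤ (𝓞 k))
  {I : Type} [Fintype I]

/-- **The density principle for pronull sets.** -/
theorem dens_pro {k' : Type} [Field k'] [NumberField k'] (ι : 𝓞 k →+* 𝓞 k') {δ : ℝ}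
    (hδ0 : 0 < δ) (p0 : ℕ)
    (Obs : ∀ (p : ℕ) [Fact p.Prime], (𝓞 k' →+* ℤ_[p]) → Set (I → ZMod p))
    (hc : ∀ (p : ℕ) [Fact p.Prime] (σ : 𝓞 k' →+* ℤ_[p]), p0 ≤ p →
      δ * (p : ℝ) ^ Fintype.card I ≤ ((Obs p σ).ncard : ℝ)) :
    ProNull {v : I × J → ℤ | NoObs ι p0 Obs (cv B v)} := by
  set good : ℕ → Prop := fun p => p0 ≤ p ∧ ∃ h : Fact p.Prime, Nonempty (𝓞 k' →+* ℤ_[p])
    with hgood
  let Ω : (p : ℕ) → Set (I × J → ZMod p) := fun p =>
    {y | ∃ (h : Fact p.Prime) (σ : 𝓞 k' →+* ℤ_[p]), rd B (σ.comp ι) I y ∈ Obs p σ}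
  have hΩ : ∀ p, good p → δ * (p : ℝ) ^ Fintype.card (I × J) ≤ ((Ω p).ncard : ℝ) := by
    intro p hp
    obtain ⟨h1, h2, ⟨σ⟩⟩ := hp
    have h3 := hc p σ h1
    have h4 := proportion (rd B (σ.comp ι) I) (rd_surj B (σ.comp ι)) (Obs p σ) (δ := δ)
      (Ω := Ω p) (by
      rw [Fintype.card_fun, ZMod.card, Nat.cast_pow]
      exact h3) (fun x hx => ⟨h2, σ, hx⟩)
    rw [Fintype.card_fun, ZMod.card, Nat.cast_pow] at h4
    exact h4
  have hdiv : ¬ Summable (fun p : ℕ => if p.Prime then (if good p then δ else 0) else 0) := by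
    intro hs
    have h1 := hs.tendsto_atTop_zero
    obtain ⟨M, hM⟩ := Filter.eventually_atTop.1 (h1.eventually_lt_const hδ0)
    obtain ⟨p, hp, h2, h3⟩ := exists_emb k' (M + p0)
    have h4 := hM p (by omega)
    have h5 : good p := ⟨by omega, hp, h3⟩
    rw [if_pos hp.out, if_pos h5] at h4
    exact lt_irrefl _ h4
  have key := Pool.Agent.N24.RW.t_CRIT (I × J) (fun p => p) (fun p hp => hp.one_lt.le)
    (fun p p' hp hp' hne => (Nat.coprime_primes hp hp').2 hne) Ω p0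
    (fun p => if good p then δ else 0) (fun p => by
      show 0 ≤ (if good p then δ else 0)
      split_ifs <;> linarith) hdiv (by
      intro p hp hlt
      show (if good p then δ else 0) * _ ≤ _
      split_ifs with hg
      · exact hΩ p hg
      · rw [zero_mul]
        exact Nat.cast_nonneg _)
  refine Pool.Agent.N24.RW.Clo.mono ?_ key
  intro v hno p hp hlt
  rintro ⟨h2, σ, hσ⟩
  have h5 := rd_int B (σ.comp ι) (cv B v)
  have h6 : (fun q : I × J => ((B.repr (cv B v q.1) q.2 : ℤ) : ZMod p)) =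
      fun q => ((v q : ℤ) : ZMod p) := by
    funext q
    rw [repr_cv]
  rw [h6] at h5
  have h7 : rd B (σ.comp ι) I (fun q => ((v q : ℤ) : ZMod p)) ∈ Obs p σ := hσ
  rw [h5] at h7
  exact hno p σ hlt.le h7

end density

variable {k : Type} [Field k] [NumberField k] {k' : Type} [Field k'] [NumberField k'] {r : ℕ}

/-- the set of the vectors without an obstruction -/
def BadV (B : Module.Basis (Fin r) ℤ (𝓞 k)) (f : (𝓞 k)[X]) {I : Type}
    (Ob : ∀ (p : ℕ) [Fact p.Prime], (ZMod p)[X] → Set (I → ZMod p)) : Set (I × Fin r → ℤ) :=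
  {v | ∀ (p : ℕ) [Fact p.Prime] (σ : 𝓞 k →+* ℤ_[p]),
    (fun i => red σ (cv B v i)) ∉ Ob p (f.map (red σ))}

lemma badV_sub (B : Module.Basis (Fin r) ℤ (𝓞 k)) (B' : Module.Basis (Fin r) ℤ (𝓞 k'))
    (h : tab B = tab B') (y : Σ d : ℕ, (Fin d → Fin r → ℤ)) {I : Type}
    (Ob : ∀ (p : ℕ) [Fact p.Prime], (ZMod p)[X] → Set (I → ZMod p)) :
    BadV B (pf B y) Ob ⊆ BadV B' (pf B' y) Ob := by
  obtain ⟨φ, hφ⟩ := exists_iso B B' h
  intro v hv p _ σ
  have h1 := hv p (σ.comp (φ : 𝓞 k →+* 𝓞 k'))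
  have h2 : red (σ.comp (φ : 𝓞 k →+* 𝓞 k')) = (red σ).comp (φ : 𝓞 k →+* 𝓞 k') := rfl
  rw [h2, ← Polynomial.map_map, pf_map B B' φ hφ] at h1
  have h3 : (fun i => red σ (cv B' v i)) =
      fun i => ((red σ).comp (φ : 𝓞 k →+* 𝓞 k')) (cv B v i) := by
    funext i
    show red σ (cv B' v i) = red σ (φ (cv B v i))
    rw [cv_map B B' φ hφ]
  rw [h3]
  exact h1

theorem badV_pro (B : Module.Basis (Fin r) ℤ (𝓞 k)) (f : (𝓞 k)[X]) {I : Type} [Fintype I]
    (ι : 𝓞 k →+* 𝓞 k') {δ : ℝ} (hδ0 : 0 < δ) (p0 : ℕ)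
    (Ob : ∀ (p : ℕ) [Fact p.Prime], (ZMod p)[X] → Set (I → ZMod p))
    (hob : ∀ (p : ℕ) [Fact p.Prime] (σ : 𝓞 k' →+* ℤ_[p]), p0 ≤ p →
      δ * (p : ℝ) ^ Fintype.card I ≤ ((Ob p (f.map (red (σ.comp ι)))).ncard : ℝ)) :
    ProNull (BadV B f Ob) := by
  refine Pool.Agent.N24.RW.Clo.mono ?_ (dens_pro B ι hδ0 p0
    (fun p _ σ => Ob p (f.map (red (σ.comp ι)))) hob)
  intro v hv p _ σ hp
  exact hv p (σ.comp ι)

theorem badV_pro' (B : Module.Basis (Fin r) ℤ (𝓞 k)) {I : Type} [Fintype I] {δ : ℝ} (hδ0 : 0 < δ)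
    (p0 : ℕ) (Ob : ∀ (p : ℕ) [Fact p.Prime], (ZMod p)[X] → Set (I → ZMod p))
    (hob : ∀ (p : ℕ) [Fact p.Prime] (σ : 𝓞 k →+* ℤ_[p]), p0 ≤ p →
      δ * (p : ℝ) ^ Fintype.card I ≤ ((Ob p 0).ncard : ℝ)) :
    ProNull (BadV B 0 Ob) := by
  refine badV_pro B 0 (RingHom.id (𝓞 k)) hδ0 p0 Ob ?_
  intro p _ σ hp
  rw [Polynomial.map_zero]
  exact hob p σ hp

/-- **One null set for all number fields and all integral bases.** -/
theorem ae_one {A : Type} [Countable A] {I : Type} [Fintype I] (r : ℕ)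
    (Ob : ∀ (_ : A) (p : ℕ) [Fact p.Prime], (ZMod p)[X] → Set (I → ZMod p))
    {X : Type} [MeasurableSpace X] (ν : Measure X) (P : X → Prop) (S : ℕ → Finset ℕ)
    (c : X → ℕ → I × Fin r → ℤ)
    (hR : ∀ D : Set (I × Fin r → ℤ), ProNull D → ∀ᵐ x ∂ν, P x → RareIn S (c x) D) :
    ∀ᵐ x ∂ν, P x → ∀ (k : Type) [Field k] [NumberField k] (B : Module.Basis (Fin r) ℤ (𝓞 k))
      (f : (𝓞 k)[X]) (i : A), ProNull (BadV B f (fun p _ => Ob i p)) →
      RareIn S (c x) (BadV B f (fun p _ => Ob i p)) := by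
  let Y : Type := A × Tab r × (Σ d : ℕ, (Fin d → Fin r → ℤ))
  have hY : Countable Y := by
    show Countable (A × Tab r × (Σ d : ℕ, (Fin d → Fin r → ℤ)))
    infer_instance
  let Pr : Y → Set (I × Fin r → ℤ) → Prop := fun z D => ProNull D ∧ ∃ (k : Type) (_ : Field k)
    (_ : NumberField k) (B : Module.Basis (Fin r) ℤ (𝓞 k)), tab B = z.2.1 ∧
      D = BadV B (pf B z.2.2) (fun p _ => Ob z.1 p)
  let Z : Y → Set (I × Fin r → ℤ) := fun z => if h : ∃ D, Pr z D then h.choose else ∅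
  have hZ : ∀ z, ∀ᵐ x ∂ν, P x → RareIn S (c x) (Z z) := by
    intro z
    by_cases h : ∃ D, Pr z D
    · have h1 : Z z = h.choose := dif_pos h
      rw [h1]
      exact hR _ h.choose_spec.1
    · have h1 : Z z = ∅ := dif_neg h
      rw [h1]
      exact Eventually.of_forall fun x _ => Pool.Agent.N918.EQ.rareIn_empty S (c x)
  filter_upwards [ae_all_iff.2 hZ] with x hx hP
  intro k _ _ B f i hpro
  obtain ⟨y, rfl⟩ := exists_pf B f
  let z : Y := ⟨i, tab B, y⟩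
  have h : ∃ D, Pr z D := ⟨_, hpro, k, inferInstance, inferInstance, B, rfl, rfl⟩
  refine (hx z hP).mono ?_
  show _ ⊆ (if h : ∃ D, Pr z D then h.choose else ∅)
  rw [dif_pos h]
  obtain ⟨-, k₀, _, _, B₀, ht, hD⟩ := h.choose_spec
  rw [hD]
  exact badV_sub B B₀ ht.symm y _

/-! ### the three families -/

/-- the first family -/
def BadC {k : Type} [Field k] [NumberField k] {r : ℕ} (ℓ N m : ℕ) (B : Module.Basis (Fin r) ℤ (𝓞 k)) :
    Set ((Fin (N + 1) × Fin (m + 1)) × Fin r → ℤ) :=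
  {v | ¬ Jac.ShaPrimaryTrivial ℓ (C (algebraMap k[X] (RatFunc k)
      (gp (fun q => algebraMap (𝓞 k) k (cv B v q)) 0)) *
      ∏ i : Fin N, (X - C (algebraMap k[X] (RatFunc k)
        (gp (fun q => algebraMap (𝓞 k) k (cv B v q)) i.succ)))) k[X]}

/-- the second family -/
def BadM {k : Type} [Field k] [NumberField k] {r : ℕ} (ℓ N m : ℕ) (B : Module.Basis (Fin r) ℤ (𝓞 k)) :
    Set ((Fin (N + 1) × Fin (m + 1)) × Fin r → ℤ) :=
  {v | ¬ ∀ δ : k, δ ≠ 0 → Jac.ShaPrimaryTrivial ℓ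
      (C (algebraMap k[X] (RatFunc k) (C δ)) *
      ∏ i : Fin (N + 1), (X - C (algebraMap k[X] (RatFunc k)
        (gp (fun q => algebraMap (𝓞 k) k (cv B v q)) i)))) k[X]}

/-- the twists -/
def BadT {k : Type} [Field k] [NumberField k] {r : ℕ} (ℓ m : ℕ) (B : Module.Basis (Fin r) ℤ (𝓞 k))
    (G : (RatFunc k)[X]) : Set (Fin (m + 1) × Fin r → ℤ) :=
  {v | ¬ Jac.ShaPrimaryTrivial ℓ (C (algebraMap k[X] (RatFunc k)
      (pol fun j => algebraMap (𝓞 k) k (cv B v j))) * G) k[X]}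

theorem exists_root {k : Type} [Field k] [NumberField k] {ℓ : ℕ} (hℓ : ℓ.Prime) {ζ : k}
    (hζ : IsPrimitiveRoot ζ ℓ) : ∃ ζ' : 𝓞 k, IsPrimitiveRoot ζ' ℓ := by
  have hint : IsIntegral ℤ ζ := hζ.isIntegral hℓ.pos
  refine ⟨⟨ζ, hint⟩, ?_⟩
  refine IsPrimitiveRoot.of_map_of_injective (f := algebraMap (𝓞 k) k) ?_
    (FaithfulSMul.algebraMap_injective _ _)
  exact hζ

/-- the two families of curves, general form -/
theorem ae_curves (r N n : ℕ) (hn : 4 ≤ n) {X : Type} [MeasurableSpace X] (ν : Measure X)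
    (P : X → Prop) (S : ℕ → Finset ℕ) (c : X → ℕ → (Fin (N + 1) × Fin (n + 1)) × Fin r → ℤ)
    (hR : ∀ D : Set ((Fin (N + 1) × Fin (n + 1)) × Fin r → ℤ), ProNull D →
      ∀ᵐ x ∂ν, P x → RareIn S (c x) D) :
    ∀ᵐ x ∂ν, P x → ∀ (k : Type) [Field k] [NumberField k] (B : Module.Basis (Fin r) ℤ (𝓞 k))
      (ℓ : ℕ) (_ : ℓ.Prime) (ζ : k) (_ : IsPrimitiveRoot ζ ℓ),
      (¬ ℓ ∣ N → RareIn S (c x) (BadC ℓ N n B)) ∧
      (2 ≤ N → ¬ ℓ ∣ N + 1 → RareIn S (c x) (BadM ℓ N n B)) := by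
  obtain ⟨m, rfl⟩ : ∃ m, n = m + 2 := ⟨n - 2, by omega⟩
  have h1 := ae_one (A := Σ (ℓ : ℕ), Option (Option ((Fin N × Fin N) ⊕ (Fin N × Fin N → Fin ℓ))))
    (I := Fin (N + 1) × Fin (m + 3)) r (fun i p _ _ => ObsL i.1 N m i.2 p) ν P S c hR
  have h2 := ae_one (A := Σ (ℓ : ℕ), Fin N × Option (Option ((Fin N × Fin N) ⊕ (Fin N × Fin N → Fin ℓ))))
    (I := Fin (N + 1) × Fin (m + 3)) r (fun i p _ _ => {c | trn i.2.1 c ∈ ObsL i.1 N m i.2.2 p})
    ν P S c hR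
  filter_upwards [h1, h2] with x hx1 hx2 hP k _ _ B ℓ hℓ ζ hζ
  obtain ⟨ζ', hζ'⟩ := exists_root hℓ hζ
  refine ⟨fun hN => ?_, fun hN2 hN => ?_⟩
  · have hS : ∀ T : Option (Option ((Fin N × Fin N) ⊕ (Fin N × Fin N → Fin ℓ))),
        RareIn S (c x) (BadV B 0 (fun p _ _ => ObsL ℓ N m T p)) := by
      intro T
      refine hx1 hP k B 0 ⟨ℓ, T⟩ ?_
      exact badV_pro' B (δ := 1 / (2048 * ((m + 2 : ℕ) : ℝ) ^ 2)) (by positivity)
        (1600 + (4 * N + 6) + 2 * (N * N) + ℓ + 1) (fun p _ _ => ObsL ℓ N m T p)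
        (fun p _ σ hp => card_ObsL hℓ hζ' (by omega) T p σ hp)
    refine (RareIn.iUnion _ hS).mono ?_
    intro v hnot
    by_contra hcon
    apply hnot
    refine curves_end hℓ hζ hN (by omega) _ ?_
    intro T
    by_contra hno
    apply hcon
    rw [Set.mem_iUnion]
    refine ⟨T, ?_⟩
    intro p _ σ hmem
    exact hno ⟨p, _, σ, hmem⟩
  · have hS : ∀ T : Fin N × Option (Option ((Fin N × Fin N) ⊕ (Fin N × Fin N → Fin ℓ))),
        RareIn S (c x) (BadV B 0 (fun p _ _ => {c | trn T.1 c ∈ ObsL ℓ N m T.2 p})) := by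
      intro T
      refine hx2 hP k B 0 ⟨ℓ, T⟩ ?_
      refine badV_pro' B (δ := 1 / (2048 * ((m + 2 : ℕ) : ℝ) ^ 2)) (by positivity)
        (1600 + (4 * N + 6) + 2 * (N * N) + ℓ + 1)
        (fun p _ _ => {c | trn T.1 c ∈ ObsL ℓ N m T.2 p}) ?_
      intro p _ σ hp
      rw [card_trn]
      exact card_ObsL hℓ hζ' (by omega) T.2 p σ hp
    refine (RareIn.iUnion _ hS).mono ?_
    intro v hnot
    by_contra hcon
    apply hnot
    refine monic_end hℓ hζ hN2 hN (by omega) _ ?_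
    intro i T
    by_contra hno
    apply hcon
    rw [Set.mem_iUnion]
    refine ⟨(i, T), ?_⟩
    intro p _ σ hmem
    exact hno ⟨p, _, σ, hmem⟩

/-- the twists, general form -/
theorem ae_twists (r n : ℕ) (hn : 2 ≤ n) {X : Type} [MeasurableSpace X] (ν : Measure X)
    (P : X → Prop) (S : ℕ → Finset ℕ) (c : X → ℕ → Fin (n + 1) × Fin r → ℤ)
    (hR : ∀ D : Set (Fin (n + 1) × Fin r → ℤ), ProNull D → ∀ᵐ x ∂ν, P x → RareIn S (c x) D) :
    ∀ᵐ x ∂ν, P x → ∀ (k : Type) [Field k] [NumberField k] (B : Module.Basis (Fin r) ℤ (𝓞 k))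
      (ℓ : ℕ) (_ : ℓ.Prime) (ζ : k) (_ : IsPrimitiveRoot ζ ℓ)
      (G : (RatFunc k)[X]) (_ : G.Splits) (_ : G.Separable) (_ : ¬ ℓ ∣ G.natDegree)
      (_ : n = 2 → ℓ ≠ 2), RareIn S (c x) (BadT ℓ n B G) := by
  obtain ⟨m, rfl⟩ : ∃ m, n = m + 2 := ⟨n - 2, by omega⟩
  have h1 := ae_one (A := ℕ × Fin 3) (I := Fin (m + 3)) r (fun i p _ g => ObT i.1 m i.2 p g) ν P S c hR
  filter_upwards [h1] with x hx hP k _ _ B ℓ hℓ ζ hζ G hs hsep hdeg hn3
  obtain ⟨ζ', hζ'⟩ := exists_root hℓ hζ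
  obtain ⟨s, hs1, hs2⟩ := twists_end hℓ hζ hs hsep hdeg
  have hδ0 : (0 : ℝ) < 1 / (32 * (m + 2) ^ 2) := by positivity
  have hA : RareIn S (c x) (BadV B 0 (fun p _ g => ObT ℓ m 0 p g)) := by
    refine hx hP k B 0 ⟨ℓ, 0⟩ ?_
    refine badV_pro' B hδ0 2 (fun p _ g => ObT ℓ m 0 p g) ?_
    intro p _ σ hp
    rw [Fintype.card_fin]
    have h1 := card_irr2 p (n := m + 2) (by omega)
    refine le_trans ?_ h1
    exact mul_le_mul_of_nonneg_right (d3 m) (by positivity)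
  have hB : RareIn S (c x) (if 1 ≤ m then BadV B 0 (fun p _ g => ObT ℓ m 1 p g) else ∅) := by
    split_ifs with hm
    · refine hx hP k B 0 ⟨ℓ, 1⟩ ?_
      refine badV_pro' B hδ0 2 (fun p _ g => ObT ℓ m 1 p g) ?_
      intro p _ σ hp
      rw [Fintype.card_fin]
      have h1 := card_fac2 p (m := m + 1) (by omega)
      refine le_trans ?_ h1
      exact mul_le_mul_of_nonneg_right (d2 m) (by positivity)
    · exact Pool.Agent.N918.EQ.rareIn_empty _ _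
  have hC : ∀ f ∈ s, RareIn S (c x) (BadV B f (fun p _ g => ObT ℓ m 2 p g)) := by
    intro f hf
    refine hx hP k B f ⟨ℓ, 2⟩ ?_
    obtain ⟨k', _, _, ι, p0, hk'⟩ := hs1 f hf
    obtain ⟨P0, hP0⟩ := card_PObs hℓ f.natDegree
    refine badV_pro B f ι hδ0 (p0 + P0 + ℓ + 1) (fun p _ g => ObT ℓ m 2 p g) ?_
    intro p _ σ hp
    obtain ⟨h1, h2⟩ := hk' p σ (by omega)
    rw [Fintype.card_fin]
    exact hP0 p (by omega) (ell_dvd hℓ hζ' (σ.comp ι) (by omega)) _ h1 natDegree_map_le h2 m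
  refine ((hA.union hB).union (RareIn.biUnion s _ hC)).mono ?_
  intro v hnot
  by_contra hcon
  rw [Set.mem_union, Set.mem_union, not_or, not_or] at hcon
  obtain ⟨⟨hA', hB'⟩, hC'⟩ := hcon
  apply hnot
  refine hs2 m hn3 _ ?_ ?_ ?_
  · by_contra hno
    apply hA'
    intro p _ σ hmem
    exact hno ⟨p, _, σ, hmem⟩
  · intro hm
    rw [if_pos hm] at hB'
    by_contra hno
    apply hB'
    intro p _ σ hmem
    obtain ⟨r, g, h1⟩ := hmem
    exact hno ⟨p, _, σ, r, g, h1⟩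
  · intro f hf
    by_contra hno
    apply hC'
    rw [Set.mem_iUnion₂]
    refine ⟨f, hf, ?_⟩
    intro p _ σ hmem
    exact hno ⟨p, _, σ, hmem⟩

end Pool.Agent.N918.EQ.Sel
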