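import Pool.Agent.N918.EQ.Base
import Pool.Agent.N24.RW.Main
import Pool.Agent.N24.RW.Orb
import Pool.Agent.N24.RW.Erg

/-!
# Typical sequences of integral vectors: equidistributed sequences, metric sequences, random orbits (helper918)
-/

set_option autoImplicit false

namespace Pool.Agent.N918.EQ

open Filter Topology MeasureTheory
open Pool.Agent.N24.RW (ProNull Walk orb words)
open Pool.Agent.N24.KM (Koksma Rarely Metric)

section

variable {ι : Type} [Fintype ι]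

omit [Fintype ι] in
theorem RareIn.mono {S : ℕ → Finset ℕ} {c : ℕ → ι → ℤ} {A B : Set (ι → ℤ)} (hAB : A ⊆ B)
    (hB : RareIn S c B) : RareIn S c A := by
  intro ε hε
  obtain ⟨N₀, h⟩ := hB ε hε
  refine ⟨N₀, fun N hN => le_trans ?_ (h N hN)⟩
  refine Nat.cast_le.2 (Set.ncard_le_ncard ?_ ((S N).finite_toSet.subset fun n hn => hn.1))
  rintro n ⟨h1, h2⟩
  exact ⟨h1, hAB h2⟩

omit [Fintype ι] in
theorem RareIn.union {S : ℕ → Finset ℕ} {c : ℕ → ι → ℤ} {A B : Set (ι → ℤ)}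
    (hA : RareIn S c A) (hB : RareIn S c B) : RareIn S c (A ∪ B) := by
  intro ε hε
  obtain ⟨N₁, h1⟩ := hA (ε / 2) (by positivity)
  obtain ⟨N₂, h2⟩ := hB (ε / 2) (by positivity)
  refine ⟨max N₁ N₂, fun N hN => ?_⟩
  have a1 := h1 N ((le_max_left _ _).trans hN)
  have a2 := h2 N ((le_max_right _ _).trans hN)
  have a3 : {n : ℕ | n ∈ S N ∧ c n ∈ A ∪ B} = {n : ℕ | n ∈ S N ∧ c n ∈ A} ∪ {n : ℕ | n ∈ S N ∧ c n ∈ B} := by
    ext n
    simp only [Set.mem_ofPred_eq, Set.mem_union]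
    tauto
  have a4 : (({n : ℕ | n ∈ S N ∧ c n ∈ A ∪ B}.ncard : ℕ) : ℝ) ≤
      (({n : ℕ | n ∈ S N ∧ c n ∈ A}.ncard : ℕ) : ℝ) + (({n : ℕ | n ∈ S N ∧ c n ∈ B}.ncard : ℕ) : ℝ) := by
    rw [a3]
    exact_mod_cast Set.ncard_union_le _ _
  linarith

omit [Fintype ι] in
theorem rareIn_empty (S : ℕ → Finset ℕ) (c : ℕ → ι → ℤ) : RareIn S c ∅ := by
  intro ε hε
  refine ⟨0, fun N _ => ?_⟩
  have h1 : {n : ℕ | n ∈ S N ∧ c n ∈ (∅ : Set (ι → ℤ))} = ∅ := by
    ext n
    simp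
  rw [h1, Set.ncard_empty, Nat.cast_zero]
  positivity

omit [Fintype ι] in
theorem RareIn.biUnion {S : ℕ → Finset ℕ} {c : ℕ → ι → ℤ} {α : Type} (s : Finset α) (A : α → Set (ι → ℤ))
    (h : ∀ i ∈ s, RareIn S c (A i)) : RareIn S c (⋃ i ∈ s, A i) := by
  classical
  induction s using Finset.induction_on with
  | empty => simpa using rareIn_empty S c
  | insert a s ha ih =>
    rw [Finset.set_biUnion_insert]
    exact (h a (Finset.mem_insert_self _ _)).union (ih fun i hi => h i (Finset.mem_insert_of_mem hi))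

omit [Fintype ι] in
theorem RareIn.iUnion {S : ℕ → Finset ℕ} {c : ℕ → ι → ℤ} {α : Type} [Finite α] (A : α → Set (ι → ℤ))
    (h : ∀ i, RareIn S c (A i)) : RareIn S c (⋃ i, A i) := by
  have := Fintype.ofFinite α
  have h1 := RareIn.biUnion (Finset.univ : Finset α) A fun i _ => h i
  simpa using h1

/-- The property `Q` of a sequence of integral vectors `c n` along finite sets of times `S N` is typical:
(1) all equidistributed sequences have it, along arbitrary sets of times;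
for the sets of times `{0, ..., N - 1}`:
(2) for Koksma sequences `f_{i,0}, f_{i,1}, ...` on `[a_i, b_i]` and almost all `x` in the box
`c n = (⌊f_{i,n}(x_i)⌋)_i` has it;
(3) for arbitrary real numbers `a_{i,n}` with `|a_{i,m} - a_{i,n}| ≥ δ > 0`, `m ≠ n`, and almost all `x`
`c n = (⌊a_{i,n} x_i⌋)_i` has it;
(4) for different `k_n`, all `ξ_i ≠ 0` and almost all `x` with all `x_i > 1` `c n = (⌊ξ_i x_i ^ k_n⌋)_i` has it;
(5) for matrices `s_0, ..., s_m` in `SL_r(ℤ)` which generate `SL_r(ℤ/q)` for all `q` prime to some number and every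
`v ≠ 0` the sequence `c n = s_{w (n-1)} ... s_{w 0} v` has it for almost all sequences of letters `w`. -/
def Typical [DecidableEq ι] (Q : (ℕ → Finset ℕ) → (ℕ → ι → ℤ) → Prop) : Prop :=
  (∀ (S : ℕ → Finset ℕ) (c : ℕ → ι → ℤ), Equi S c → Q S c) ∧
  (∀ (a b : ι → ℝ) (f : ι → ℕ → ℝ → ℝ), (∀ i, a i < b i) → (∀ i, Koksma (a i) (b i) (f i)) →
    ∀ᵐ x : ι → ℝ, (∀ i, x i ∈ Set.Icc (a i) (b i)) → Q Finset.range (fun n i => ⌊f i n (x i)⌋)) ∧
  (∀ (a : ι → ℕ → ℝ) (δ : ℝ), 0 < δ → (∀ i m n, m ≠ n → δ ≤ |a i m - a i n|) →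
    ∀ᵐ x : ι → ℝ, Q Finset.range (fun n i => ⌊a i n * x i⌋)) ∧
  (∀ (k : ℕ → ℕ) (ξ : ι → ℝ), Function.Injective k → (∀ i, ξ i ≠ 0) →
    ∀ᵐ x : ι → ℝ, (∀ i, 1 < x i) → Q Finset.range (fun n i => ⌊ξ i * x i ^ k n⌋)) ∧
  (∀ (W : Walk ι) (v : ι → ℤ), v ≠ 0 → ∀ᵐ w ∂(words W.m), Q Finset.range (orb W v w))

theorem typical_of [DecidableEq ι] (h2 : 2 ≤ Fintype.card ι)
    (Q : (ℕ → Finset ℕ) → (ℕ → ι → ℤ) → Prop)
    (h : ∀ (X : Type) (_ : MeasurableSpace X) (ν : Measure X) (P : X → Prop) (S : ℕ → Finset ℕ)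
      (c : X → ℕ → ι → ℤ), (∀ B : Set (ι → ℤ), ProNull B → ∀ᵐ x ∂ν, P x → RareIn S (c x) B) →
      ∀ᵐ x ∂ν, P x → Q S (c x)) : Typical Q := by
  refine ⟨fun S c hc => ?_, fun a b f hab hf => ?_, fun a δ hδ ha => ?_, fun k ξ hk hξ => ?_,
    fun W v hv => ?_⟩
  · have h1 := h Unit inferInstance (Measure.dirac ()) (fun _ => True) S (fun _ => c)
      (fun B hB => Eventually.of_forall fun _ _ => rareIn_of_equi hc hB)
    obtain ⟨x, hx⟩ := h1.exists
    exact hx trivial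
  · refine h (ι → ℝ) inferInstance volume (fun x => ∀ i, x i ∈ Set.Icc (a i) (b i)) Finset.range
      (fun x n i => ⌊f i n (x i)⌋) fun B hB => ?_
    filter_upwards [(Pool.Agent.N24.KM.main _ B hB).1 a b f hab hf] with x hx hP
    exact rareIn_of_rarely (hx hP)
  · have h1 := h (ι → ℝ) inferInstance volume (fun _ => True) Finset.range
      (fun x n i => ⌊a i n * x i⌋) fun B hB => by
        filter_upwards [(Pool.Agent.N24.KM.main _ B hB).2.1 a δ hδ ha] with x hx _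
        exact rareIn_of_rarely hx
    filter_upwards [h1] with x hx
    exact hx trivial
  · refine h (ι → ℝ) inferInstance volume (fun x => ∀ i, 1 < x i) Finset.range
      (fun x n i => ⌊ξ i * x i ^ k n⌋) fun B hB => ?_
    filter_upwards [(Pool.Agent.N24.KM.main _ B hB).2.2 k ξ hk hξ] with x hx hP
    exact rareIn_of_rarely (hx hP)
  · have h1 := h (ℕ → Fin (W.m + 1)) inferInstance (words W.m) (fun _ => True) Finset.range
      (fun w => orb W v w) fun B hB => by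
        have h3 : ∀ᵐ w ∂(words W.m), Rarely (orb W v w) B :=
          Pool.Agent.N24.RW.t_MAIN Pool.Agent.N24.RW.t_ORB Pool.Agent.N24.RW.t_ERG ι h2 W v hv B hB
        filter_upwards [h3] with w hw _
        exact rareIn_of_rarely hw
    filter_upwards [h1] with w hw
    exact hw trivial

end

end Pool.Agent.N918.EQ
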